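import Mathlib

/-!
# Dependence on `p` of the Korenblum extremal function `F_p`

The conjectured strict monotonicity `F_{p₁}(c) < F_{p₂}(c)` for all `p₁ < p₂` and all
`c > max (κ_{p₁}) (κ_{p₂})` is false, for every `p₁`: replacing `(f, g)` by `(f ^ n, g ^ n)` gives
`F_{n p}(c) ≤ F_p(c)` for every positive integer `n`, every `p > 0` and every `c`.
-/

open MeasureTheory Metric Set
open scoped ENNReal

namespace Pool.Agent.Results.MP_ce4856_an.PowerMonotone

/-- `(1/π) ∫_𝔻 |f|^p dA`, as an extended non-negative real number. -/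
noncomputable def bergInt (p : ℝ) (f : ℂ → ℂ) : ℝ≥0∞ :=
  (ENNReal.ofReal Real.pi)⁻¹ * ∫⁻ z in ball (0 : ℂ) 1, ENNReal.ofReal (‖f z‖ ^ p)

/-- `f` is in the Bergman space `A^p(𝔻)`. -/
def MemBergman (p : ℝ) (f : ℂ → ℂ) : Prop :=
  DifferentiableOn ℂ f (ball (0 : ℂ) 1) ∧ bergInt p f < ∞

/-- `‖f‖_p ^ p = (1/π) ∫_𝔻 |f|^p dA` (for `f` in `A^p`). -/
noncomputable def normPow (p : ℝ) (f : ℂ → ℂ) : ℝ := (bergInt p f).toReal

/-- `‖f‖_p = ((1/π) ∫_𝔻 |f|^p dA)^(1/p)` (for `f` in `A^p`). -/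
noncomputable def bergNorm (p : ℝ) (f : ℂ → ℂ) : ℝ := (normPow p f) ^ (1 / p)

/-- The property in the definition of the Korenblum constant: for all `f, g` in `A^p`, if
`|f| ≤ |g|` on `c < |z| < 1` then `‖f‖_p ≤ ‖g‖_p`. -/
def KorenblumProperty (p c : ℝ) : Prop :=
  ∀ f g : ℂ → ℂ, MemBergman p f → MemBergman p g →
    (∀ z : ℂ, c < ‖z‖ → ‖z‖ < 1 → ‖f z‖ ≤ ‖g z‖) → bergNorm p f ≤ bergNorm p g

/-- The Korenblum constant `κ_p`: the supremum of all `c` in `(0,1)` with the Korenblum property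
(and `0` if there is no such `c`: the supremum of the empty set of reals is `0`). -/
noncomputable def kappa (p : ℝ) : ℝ := sSup {c : ℝ | 0 < c ∧ c < 1 ∧ KorenblumProperty p c}

/-- The set `FG_p(c)` of pairs `(f, g)`. -/
def FG (p c : ℝ) : Set ((ℂ → ℂ) × (ℂ → ℂ)) :=
  {q | MemBergman p q.1 ∧ MemBergman p q.2 ∧ bergNorm p q.1 ≤ 1 ∧ bergNorm p q.2 ≤ 1 ∧
    ∀ z : ℂ, c ≤ ‖z‖ → ‖z‖ < 1 → ‖q.1 z‖ ≤ ‖q.2 z‖}

/-- `F_p(c)`, the supremum of `‖f‖_p^p - ‖g‖_p^p` over `(f, g)` in `FG_p(c)`. -/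
noncomputable def F (p c : ℝ) : ℝ := sSup {x : ℝ | ∃ q ∈ FG p c, x = normPow p q.1 - normPow p q.2}

lemma normPow_nonneg (p : ℝ) (f : ℂ → ℂ) : 0 ≤ normPow p f := ENNReal.toReal_nonneg

lemma bergNorm_le_one_iff {p : ℝ} (hp : 0 < p) (f : ℂ → ℂ) :
    bergNorm p f ≤ 1 ↔ normPow p f ≤ 1 := by
  unfold bergNorm
  have h := normPow_nonneg p f
  have h1 : 0 < 1 / p := by positivity
  constructor
  · intro h2
    by_contra h3
    push Not at h3
    have := Real.one_lt_rpow h3 h1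
    linarith
  · intro h2
    exact Real.rpow_le_one h h2 h1.le

lemma bergInt_pow (p : ℝ) (n : ℕ) (f : ℂ → ℂ) :
    bergInt p (fun z => f z ^ n) = bergInt (n * p) f := by
  unfold bergInt
  congr 1
  apply lintegral_congr
  intro z
  rw [norm_pow, ← Real.rpow_natCast, ← Real.rpow_mul (norm_nonneg _)]

lemma normPow_pow (p : ℝ) (n : ℕ) (f : ℂ → ℂ) :
    normPow p (fun z => f z ^ n) = normPow (n * p) f := by
  unfold normPow
  rw [bergInt_pow]

lemma memBergman_pow {p : ℝ} {n : ℕ} {f : ℂ → ℂ} (h : MemBergman (n * p) f) :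
    MemBergman p (fun z => f z ^ n) :=
  ⟨h.1.pow n, by rw [bergInt_pow]; exact h.2⟩

lemma bergInt_zero {p : ℝ} (hp : 0 < p) : bergInt p (fun _ => 0) = 0 := by
  unfold bergInt
  simp [Real.zero_rpow hp.ne']

lemma zero_mem_FG {p : ℝ} (hp : 0 < p) (c : ℝ) : ((fun _ => 0, fun _ => 0) : (ℂ → ℂ) × (ℂ → ℂ)) ∈ FG p c := by
  have h : MemBergman p (fun _ => 0) := ⟨differentiableOn_const 0, by rw [bergInt_zero hp]; simp⟩
  have h2 : bergNorm p (fun _ => 0) ≤ 1 := by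
    rw [bergNorm_le_one_iff hp, normPow, bergInt_zero hp]; simp
  exact ⟨h, h, h2, h2, fun z _ _ => by simp⟩

lemma F_set_bddAbove {p : ℝ} (hp : 0 < p) (c : ℝ) :
    BddAbove {x : ℝ | ∃ q ∈ FG p c, x = normPow p q.1 - normPow p q.2} := by
  refine ⟨1, ?_⟩
  rintro x ⟨q, hq, rfl⟩
  have h1 := (bergNorm_le_one_iff hp q.1).1 hq.2.2.1
  have h2 := normPow_nonneg p q.2
  linarith

/-- The power trick. -/
lemma F_mul_le {p : ℝ} (hp : 0 < p) {n : ℕ} (hn : 1 ≤ n) (c : ℝ) : F (n * p) c ≤ F p c := by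
  have hn' : (0 : ℝ) < n := by exact_mod_cast hn
  have hnp : 0 < (n : ℝ) * p := by positivity
  apply csSup_le
  · exact ⟨_, _, zero_mem_FG hnp c, rfl⟩
  · rintro x ⟨q, hq, rfl⟩
    apply le_csSup (F_set_bddAbove hp c)
    refine ⟨(fun z => q.1 z ^ n, fun z => q.2 z ^ n), ?_, ?_⟩
    · obtain ⟨h1, h2, h3, h4, h5⟩ := hq
      refine ⟨memBergman_pow h1, memBergman_pow h2, ?_, ?_, ?_⟩
      · rw [bergNorm_le_one_iff hp]
        show normPow p (fun z => q.1 z ^ n) ≤ 1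
        rw [normPow_pow]
        exact (bergNorm_le_one_iff hnp _).1 h3
      · rw [bergNorm_le_one_iff hp]
        show normPow p (fun z => q.2 z ^ n) ≤ 1
        rw [normPow_pow]
        exact (bergNorm_le_one_iff hnp _).1 h4
      · intro z hz1 hz2
        show ‖q.1 z ^ n‖ ≤ ‖q.2 z ^ n‖
        rw [norm_pow, norm_pow]
        exact pow_le_pow_left₀ (norm_nonneg _) (h5 z hz1 hz2) n
    · show _ = normPow p (fun z => q.1 z ^ n) - normPow p (fun z => q.2 z ^ n)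
      rw [normPow_pow, normPow_pow]

lemma vol_ball (r : ℝ) : volume (ball (0 : ℂ) r) = ENNReal.ofReal r ^ 2 * ENNReal.ofReal Real.pi := by
  rw [Complex.volume_ball]
  congr 1
  rw [← NNReal.coe_real_pi, ENNReal.ofReal_coe_nnreal]

lemma bergInt_const {p : ℝ} {c : ℝ} (hc : 0 < c) :
    bergInt p (fun _ => (c : ℂ)) = ENNReal.ofReal (c ^ p) := by
  unfold bergInt
  beta_reduce
  rw [Complex.norm_real, Real.norm_eq_abs, abs_of_pos hc]
  rw [lintegral_const, Measure.restrict_apply_univ, vol_ball]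
  simp only [ENNReal.ofReal_one, one_pow, one_mul]
  rw [mul_comm (ENNReal.ofReal (c ^ p)), ← mul_assoc, ENNReal.inv_mul_cancel, one_mul]
  · simp [Real.pi_pos]
  · exact ENNReal.ofReal_ne_top

/-- the bound `(1/π) ∫_𝔻 |z|^p dA ≤ 3/4 + 2^{-p}/4` -/
lemma bergInt_id_le {p : ℝ} (hp : 0 < p) :
    bergInt p (fun z => z) ≤ ENNReal.ofReal (3 / 4 + (1 / 2) ^ p / 4) := by
  unfold bergInt
  have hsplit : ball (0 : ℂ) 1 = ball (0 : ℂ) (1 / 2) ∪ (ball (0 : ℂ) 1 \ ball (0 : ℂ) (1 / 2)) := by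
    rw [union_sdiff_cancel (ball_subset_ball (by norm_num))]
  have hv : volume (ball (0 : ℂ) 1 \ ball (0 : ℂ) (1 / 2)) = ENNReal.ofReal (3 / 4) * ENNReal.ofReal Real.pi := by
    rw [measure_sdiff (ball_subset_ball (by norm_num)) measurableSet_ball.nullMeasurableSet
      (by rw [vol_ball]; exact ENNReal.mul_ne_top (by simp) ENNReal.ofReal_ne_top), vol_ball, vol_ball,
      ← ENNReal.sub_mul (fun _ _ => ENNReal.ofReal_ne_top), ← ENNReal.ofReal_pow (by norm_num),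
      ← ENNReal.ofReal_pow (by norm_num), ← ENNReal.ofReal_sub _ (by norm_num)]
    norm_num
  have h1 : ∫⁻ z in ball (0 : ℂ) (1 / 2), ENNReal.ofReal (‖z‖ ^ p) ≤
      ENNReal.ofReal ((1 / 2) ^ p) * (ENNReal.ofReal (1 / 4) * ENNReal.ofReal Real.pi) := by
    calc ∫⁻ z in ball (0 : ℂ) (1 / 2), ENNReal.ofReal (‖z‖ ^ p)
        ≤ ∫⁻ z in ball (0 : ℂ) (1 / 2), ENNReal.ofReal ((1 / 2) ^ p) := by
          apply setLIntegral_mono' measurableSet_ball
          intro z hz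
          apply ENNReal.ofReal_le_ofReal
          exact Real.rpow_le_rpow (norm_nonneg _) (mem_ball_zero_iff.1 hz).le hp.le
      _ = _ := by
          rw [lintegral_const, Measure.restrict_apply_univ, vol_ball, ← ENNReal.ofReal_pow (by norm_num)]
          norm_num
  have h2 : ∫⁻ z in ball (0 : ℂ) 1 \ ball (0 : ℂ) (1 / 2), ENNReal.ofReal (‖z‖ ^ p) ≤
      ENNReal.ofReal (3 / 4) * ENNReal.ofReal Real.pi := by
    calc ∫⁻ z in ball (0 : ℂ) 1 \ ball (0 : ℂ) (1 / 2), ENNReal.ofReal (‖z‖ ^ p)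
        ≤ ∫⁻ z in ball (0 : ℂ) 1 \ ball (0 : ℂ) (1 / 2), 1 := by
          apply setLIntegral_mono' (measurableSet_ball.diff measurableSet_ball)
          intro z hz
          rw [ENNReal.ofReal_le_one]
          exact Real.rpow_le_one (norm_nonneg _) (mem_ball_zero_iff.1 hz.1).le hp.le
      _ = _ := by
          rw [lintegral_const, Measure.restrict_apply_univ, hv, one_mul]
  have h3 : ∫⁻ z in ball (0 : ℂ) 1, ENNReal.ofReal (‖z‖ ^ p) ≤
      ENNReal.ofReal Real.pi * ENNReal.ofReal (3 / 4 + (1 / 2) ^ p / 4) := by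
    rw [hsplit]
    refine (lintegral_union_le _ _ _).trans ((add_le_add h1 h2).trans (le_of_eq ?_))
    have hq : (0:ℝ) ≤ (1 / 2) ^ p := by positivity
    rw [← mul_assoc, ← add_mul, mul_comm, ← ENNReal.ofReal_mul hq, ← ENNReal.ofReal_add (by positivity) (by norm_num)]
    congr 2
    ring
  calc (ENNReal.ofReal Real.pi)⁻¹ * ∫⁻ z in ball (0 : ℂ) 1, ENNReal.ofReal (‖z‖ ^ p)
      ≤ (ENNReal.ofReal Real.pi)⁻¹ * (ENNReal.ofReal Real.pi * ENNReal.ofReal (3 / 4 + (1 / 2) ^ p / 4)) :=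
        mul_le_mul_right h3 _
    _ = _ := by
        rw [← mul_assoc, ENNReal.inv_mul_cancel, one_mul]
        · simp [Real.pi_pos]
        · exact ENNReal.ofReal_ne_top

/-- `κ_p < 1` for every `p > 0`. -/
lemma kappa_lt_one {p : ℝ} (hp : 0 < p) : kappa p < 1 := by
  set A : ℝ := 3 / 4 + (1 / 2) ^ p / 4 with hA
  have hq0 : (0:ℝ) < (1 / 2) ^ p := by positivity
  have hq1 : ((1:ℝ) / 2) ^ p < 1 := Real.rpow_lt_one (by norm_num) (by norm_num) hp
  have hA0 : 0 < A := by positivity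
  have hA1 : A < 1 := by rw [hA]; linarith
  have hc0 : A ^ (1 / p) < 1 := Real.rpow_lt_one hA0.le hA1 (by positivity)
  refine lt_of_le_of_lt ?_ hc0
  apply Real.sSup_le _ (by positivity)
  rintro c ⟨h0, h1, hK⟩
  by_contra hlt
  push Not at hlt
  have hcp : A < c ^ p := by
    have := Real.rpow_lt_rpow (by positivity) hlt hp
    rwa [← Real.rpow_mul hA0.le, one_div, inv_mul_cancel₀ hp.ne', Real.rpow_one] at this
  have hb1 := bergInt_const (p := p) h0
  have hb2 := bergInt_id_le hp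
  have hm1 : MemBergman p (fun _ => (c : ℂ)) :=
    ⟨differentiableOn_const _, by rw [hb1]; exact ENNReal.ofReal_lt_top⟩
  have hm2 : MemBergman p (fun z => z) := ⟨differentiableOn_id, hb2.trans_lt ENNReal.ofReal_lt_top⟩
  have hle := hK _ _ hm1 hm2 (fun z hz1 _ => by simpa [abs_of_pos h0] using hz1.le)
  have h2 : normPow p (fun _ => (c : ℂ)) = c ^ p := by
    rw [normPow, hb1, ENNReal.toReal_ofReal (by positivity)]
  have h3 : normPow p (fun z => z) ≤ A := by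
    rw [normPow]
    exact ENNReal.toReal_le_of_le_ofReal hA0.le hb2
  have h4 : normPow p (fun _ => (c : ℂ)) ≤ normPow p (fun z => z) := by
    unfold bergNorm at hle
    exact (Real.rpow_le_rpow_iff (normPow_nonneg _ _) (normPow_nonneg _ _) (by positivity)).1 hle
  linarith

/-- For every `p > 0` and every integer `n ≥ 1`, `F_{np}(c) ≤ F_p(c)` for all `c` in `(0,1)`; for
`n ≥ 2` the interval `(max κ_p κ_{np}, 1)` is non-empty. Hence the inequality
`F_{p₁}(c) < F_{p₂}(c)` fails for every `p₁ > 0`, `p₂ = n p₁` and every `c` in this interval, and the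
statement of Q1 is false. -/
theorem result :
    (∀ p : ℝ, 0 < p → ∀ n : ℕ, 1 ≤ n → ∀ c : ℝ, 0 < c → c < 1 → F (n * p) c ≤ F p c) ∧
    (∀ p : ℝ, 0 < p → ∀ n : ℕ, 1 ≤ n → (Ioo (max (kappa p) (kappa (n * p))) 1).Nonempty) ∧
    ¬ (∀ p₁ p₂ : ℝ, 0 < p₁ → p₁ < p₂ → ∀ c ∈ Ioo (max (kappa p₁) (kappa p₂)) 1,
        F p₁ c < F p₂ c) := by
  have h1 : ∀ p : ℝ, 0 < p → ∀ n : ℕ, 1 ≤ n → (Ioo (max (kappa p) (kappa (n * p))) 1).Nonempty := by
    intro p hp n hn
    have hn' : (0 : ℝ) < n := by exact_mod_cast hn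
    rw [nonempty_Ioo]
    exact max_lt (kappa_lt_one hp) (kappa_lt_one (by positivity))
  refine ⟨fun p hp n hn c _ _ => F_mul_le hp hn c, h1, ?_⟩
  intro hcon
  obtain ⟨c, hc⟩ := h1 1 one_pos 2 (by norm_num)
  have h2 := hcon 1 ((2 : ℕ) * 1) one_pos (by norm_num) c hc
  have h3 := F_mul_le one_pos (n := 2) (by norm_num) c
  linarith

end Pool.Agent.Results.MP_ce4856_an.PowerMonotone
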